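import Pool.Agent.Lib.MP_49fa77_co.H30.Iface

/-!
# FA: an extreme vertex of a family of Delaunay triangles has a boundary edge
-/

set_option autoImplicit false

namespace FT58.AS.H88

open Real MeasureTheory Set Metric Filter Relation FT58 FT58.AS

lemma cr_dt_id (u v e : ℂ) : cr u v * dt e e = cr u e * dt v e - cr v e * dt u e := by
  unfold cr dt; ring

/-- Order by slopes in an open half plane. -/
lemma slope_lt {u v e : ℂ} (hu : dt u e < 0) (hv : dt v e < 0) (h : 0 < cr u v) :
    cr v e / dt v e < cr u e / dt u e := by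
  have he : 0 ≤ dt e e := by
    unfold dt; nlinarith [sq_nonneg e.re, sq_nonneg e.im]
  have he' : dt e e ≠ 0 := by
    intro h0
    unfold dt at h0
    have h1 : e.re = 0 := by nlinarith [sq_nonneg e.re, sq_nonneg e.im]
    have h2 : e.im = 0 := by nlinarith [sq_nonneg e.re, sq_nonneg e.im]
    unfold dt at hu
    rw [h1, h2] at hu
    simp at hu
  have hpos : 0 < cr u v * dt e e := mul_pos h (lt_of_le_of_ne he (Ne.symm he'))
  rw [cr_dt_id] at hpos
  have hm : 0 < dt u e * dt v e := mul_pos_of_neg_of_neg hu hv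
  have hd : cr u e / dt u e - cr v e / dt v e
      = (cr u e * dt v e - cr v e * dt u e) / (dt u e * dt v e) := by
    field_simp [hu.ne, hv.ne]
  have : 0 < cr u e / dt u e - cr v e / dt v e := by
    rw [hd]; exact div_pos hpos hm
  linarith

theorem fa_st : FaS := by
  classical
  intro S F _hG hF y q₀ h0 e he hC
  have hmem : ∀ q, Lf F y q → q ∈ S := by
    rintro q ⟨r, hr⟩
    exact (hF.tr _ _ _ hr).2.1
  obtain ⟨q, hq, hmax⟩ := Finset.exists_max_image (S.filter fun q => Lf F y q)
    (fun q => cr (q - y) e / dt (q - y) e)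
    ⟨q₀, Finset.mem_filter.mpr ⟨hmem q₀ h0, h0⟩⟩
  have hLq : Lf F y q := (Finset.mem_filter.mp hq).2
  obtain ⟨r, hr⟩ := (hC q).mp hLq
  have hr' : F y r q := hF.cyc _ _ _ hr
  have hLr : Lf F y r := ⟨q, hr'⟩
  have hX : 0 < XX y r q := (hF.tr _ _ _ hr').2.2.2.1
  have hlt := slope_lt (he r hLr) (he q hLq) (by unfold XX at hX; exact hX)
  have hle := hmax r (Finset.mem_filter.mpr ⟨hmem r hLr, hLr⟩)
  exact absurd hlt (not_lt.mpr hle)

end FT58.AS.H88
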